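import Pool.Agent.Lib_helper43.FARF.FF10

/-!
# Project FAR: an upper bound for all numbers of crossings
-/

set_option autoImplicit false

open Finset Filter Topology Pool.Agent.Lib_helper77.VC Pool.Agent.TB Pool.Agent.BT
  Pool.Agent.VCdt.V83

namespace Pool.Agent.FAR

theorem ga_norm_phase (x : ℝ) : ‖Complex.exp (Complex.I * x)‖ = 1 := by
  rw [mul_comm]
  exact Complex.norm_exp_ofReal_mul_I x

theorem ga_deriv (N : ℕ) (a : ℤ) {f : ℂ → ℂ} (hf : Differentiable ℂ f) (w : ℂ) :
    deriv (Hf N a f) w =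
      (Complex.cos w + Complex.sin w * (Complex.I * a * N * w / (2 * Real.pi))) *
        Complex.exp (Complex.I * a * N * w ^ 2 / (4 * Real.pi)) * f w +
      Complex.sin w * Complex.exp (Complex.I * a * N * w ^ 2 / (4 * Real.pi)) * deriv f w := by
  have h1 : HasDerivAt (fun w : ℂ => Complex.exp (Complex.I * a * N * w ^ 2 / (4 * Real.pi)))
      (Complex.exp (Complex.I * a * N * w ^ 2 / (4 * Real.pi)) *
        (Complex.I * a * N * w / (2 * Real.pi))) w := by
    have h2 : HasDerivAt (fun w : ℂ => Complex.I * a * N * w ^ 2 / (4 * Real.pi))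
        (Complex.I * a * N * w / (2 * Real.pi)) w := by
      have h3 := ((hasDerivAt_pow 2 w).const_mul (Complex.I * a * N)).div_const (4 * (Real.pi : ℂ))
      refine h3.congr_deriv ?_
      have : (Real.pi : ℂ) ≠ 0 := Complex.ofReal_ne_zero.2 Real.pi_ne_zero
      field_simp
      push_cast
      ring
    exact h2.cexp
  have h4 := ((Complex.hasDerivAt_sin w).mul h1).mul (hf w).hasDerivAt
  have h5 : Hf N a f = fun w => Complex.sin w *
      Complex.exp (Complex.I * a * N * w ^ 2 / (4 * Real.pi)) * f w := rfl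
  rw [h5]
  refine (h4.deriv).trans ?_
  simp only [Pi.mul_apply]
  ring

theorem ga_nodes {N : ℕ} (hN : 1 ≤ N) (a : ℤ) (k : Bool) : ∃ α β : ℕ → ℂ,
    (∀ j < N, ‖α j‖ ≤ 1 + N * (1 + |(a : ℝ)|) ∧ ‖β j‖ ≤ 1 ∧ (2 * j + 1 = N → β j = 0)) ∧
    ∀ f : ℂ → ℂ, Differentiable ℂ f → Fu N a k f =
      ∑ j ∈ range N, (α j * f ((th N j - Real.pi : ℝ) : ℂ) +
        β j * deriv f ((th N j - Real.pi : ℝ) : ℂ)) := by
  have hNp : (0 : ℝ) < N := by exact_mod_cast hN
  have hpi := Real.pi_pos
  cases k with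
  | true =>
    refine ⟨fun j => N * Complex.exp (Complex.I * Real.pi * a * (N - 1) ^ 2 / (4 * N)) *
      Complex.exp (Complex.I * a * N * (th N j - Real.pi : ℝ) ^ 2 / (4 * Real.pi)), fun _ => 0,
      fun j hj => ⟨?_, by simp, fun _ => rfl⟩, fun f hf => ?_⟩
    · have e1 : Complex.I * Real.pi * a * ((N : ℂ) - 1) ^ 2 / (4 * N) =
          Complex.I * ((Real.pi * a * ((N : ℝ) - 1) ^ 2 / (4 * N) : ℝ) : ℂ) := by
        push_cast
        ring
      have e2 : Complex.I * a * N * ((th N j - Real.pi : ℝ) : ℂ) ^ 2 / (4 * Real.pi) =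
          Complex.I * ((a * N * (th N j - Real.pi) ^ 2 / (4 * Real.pi) : ℝ) : ℂ) := by
        push_cast
        ring
      show ‖(N : ℂ) * Complex.exp (Complex.I * Real.pi * a * ((N : ℂ) - 1) ^ 2 / (4 * N)) *
        Complex.exp (Complex.I * a * N * ((th N j - Real.pi : ℝ) : ℂ) ^ 2 / (4 * Real.pi))‖ ≤ _
      rw [e1, e2, norm_mul, norm_mul, ga_norm_phase, ga_norm_phase, Complex.norm_natCast]
      have := abs_nonneg (a : ℝ)
      nlinarith
    · unfold Fu
      rw [if_pos rfl]
      unfold Kf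
      rw [Finset.mul_sum]
      refine Finset.sum_congr rfl fun j _ => ?_
      ring
  | false =>
    refine ⟨fun j => om N a * ((Complex.cos ((th N j - Real.pi : ℝ) : ℂ) +
        Complex.sin ((th N j - Real.pi : ℝ) : ℂ) *
        (Complex.I * a * N * ((th N j - Real.pi : ℝ) : ℂ) / (2 * Real.pi))) *
        Complex.exp (Complex.I * a * N * ((th N j - Real.pi : ℝ) : ℂ) ^ 2 / (4 * Real.pi))),
      fun j => om N a * (Complex.sin ((th N j - Real.pi : ℝ) : ℂ) *
        Complex.exp (Complex.I * a * N * ((th N j - Real.pi : ℝ) : ℂ) ^ 2 / (4 * Real.pi))),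
      fun j hj => ?_, fun f hf => ?_⟩
    · have e2 : Complex.I * a * N * ((th N j - Real.pi : ℝ) : ℂ) ^ 2 / (4 * Real.pi) =
          Complex.I * ((a * N * (th N j - Real.pi) ^ 2 / (4 * Real.pi) : ℝ) : ℂ) := by
        push_cast
        ring
      have e1 : ‖om N a‖ = 1 := by
        unfold om
        rw [norm_mul, norm_neg, norm_pow, norm_neg, norm_one, one_pow, one_mul]
        have e1 : Complex.I * Real.pi * a * ((N : ℂ) - 1) ^ 2 / (4 * N) =
            Complex.I * ((Real.pi * a * ((N : ℝ) - 1) ^ 2 / (4 * N) : ℝ) : ℂ) := by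
          push_cast
          ring
        rw [e1, ga_norm_phase]
      have hs : ‖Complex.sin ((th N j - Real.pi : ℝ) : ℂ)‖ ≤ 1 := by
        rw [← Complex.ofReal_sin, Complex.norm_real]
        exact Real.abs_sin_le_one _
      have hc : ‖Complex.cos ((th N j - Real.pi : ℝ) : ℂ)‖ ≤ 1 := by
        rw [← Complex.ofReal_cos, Complex.norm_real]
        exact Real.abs_cos_le_one _
      have hw : ‖((th N j - Real.pi : ℝ) : ℂ)‖ ≤ Real.pi := by
        rw [Complex.norm_real, Real.norm_eq_abs, abs_le]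
        unfold th
        have h0 : (0 : ℝ) ≤ j := Nat.cast_nonneg j
        have h1 : (j : ℝ) + 1 ≤ N := by exact_mod_cast hj
        constructor
        · have : 0 ≤ Real.pi * (2 * j + 1) / N := by positivity
          linarith
        · have : Real.pi * (2 * j + 1) / N ≤ Real.pi * 2 := by
            rw [div_le_iff₀ hNp]
            nlinarith
          linarith
      have hI : ‖Complex.I * a * N * ((th N j - Real.pi : ℝ) : ℂ) / (2 * Real.pi)‖ ≤
          |(a : ℝ)| * N := by
        have hpn : ‖(Real.pi : ℂ)‖ = Real.pi := by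
          rw [Complex.norm_real, Real.norm_eq_abs, abs_of_pos hpi]
        rw [norm_div, norm_mul, norm_mul, norm_mul, Complex.norm_I, one_mul, Complex.norm_intCast,
          Complex.norm_natCast, norm_mul, hpn, show ‖(2 : ℂ)‖ = 2 by simp,
          div_le_iff₀ (by positivity)]
        have h1 : |(a : ℝ)| * N * ‖((th N j - Real.pi : ℝ) : ℂ)‖ ≤ |(a : ℝ)| * N * Real.pi :=
          mul_le_mul_of_nonneg_left hw (by positivity)
        have h2 : 0 ≤ |(a : ℝ)| * N * Real.pi := by positivity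
        linarith
      refine ⟨?_, ?_, ?_⟩
      · show ‖om N a * ((Complex.cos ((th N j - Real.pi : ℝ) : ℂ) +
          Complex.sin ((th N j - Real.pi : ℝ) : ℂ) *
          (Complex.I * a * N * ((th N j - Real.pi : ℝ) : ℂ) / (2 * Real.pi))) *
          Complex.exp (Complex.I * a * N * ((th N j - Real.pi : ℝ) : ℂ) ^ 2 / (4 * Real.pi)))‖ ≤ _
        rw [e2, norm_mul, norm_mul, ga_norm_phase, mul_one, e1, one_mul]
        refine (norm_add_le _ _).trans ?_
        rw [norm_mul]
        have h1 : ‖Complex.sin ((th N j - Real.pi : ℝ) : ℂ)‖ *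
            ‖Complex.I * a * N * ((th N j - Real.pi : ℝ) : ℂ) / (2 * Real.pi)‖ ≤
            1 * (|(a : ℝ)| * N) := mul_le_mul hs hI (norm_nonneg _) zero_le_one
        nlinarith
      · show ‖om N a * (Complex.sin ((th N j - Real.pi : ℝ) : ℂ) *
          Complex.exp (Complex.I * a * N * ((th N j - Real.pi : ℝ) : ℂ) ^ 2 / (4 * Real.pi)))‖ ≤ _
        rw [e2, norm_mul, norm_mul, ga_norm_phase, mul_one, e1, one_mul]
        exact hs
      · intro h
        have h1 : th N j - Real.pi = 0 := by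
          unfold th
          have : (2 * (j : ℝ) + 1) = N := by exact_mod_cast h
          rw [this]
          field_simp
          ring
        show om N a * (Complex.sin ((th N j - Real.pi : ℝ) : ℂ) *
          Complex.exp (Complex.I * a * N * ((th N j - Real.pi : ℝ) : ℂ) ^ 2 / (4 * Real.pi))) = 0
        rw [h1]
        simp
    · unfold Fu
      rw [if_neg (by simp)]
      unfold M
      rw [Finset.mul_sum]
      refine Finset.sum_congr rfl fun j _ => ?_
      rw [ga_deriv N a hf]
      ring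

theorem ga_RR {S : Sk} (h : Fits S 1) (hS : S ≠ []) {κs : Fin S.length → Fin 4 → ℝ}
    {xs : Fin S.length → ℝ} (hA : Ang S (ori S) κs xs)
    (hmax : ∀ κ' x', CAng S (ori S) κ' x' → (κ', x') ≠ (κs, xs) →
      VF S (ori S) κ' x' < VF S (ori S) κs xs) : ∃ C : ℝ, 0 < C ∧ ∀ N : ℕ, 2 ≤ N →
    ∀ φ : ℕ → ℂ, Sm N S φ → ∀ j : Fin S.length → ℕ, (∀ v, j v < N) →
    ‖RR N S φ (nd N S φ j)‖ ≤
      Real.exp (C * (1 + Real.log N) + N / Real.pi * VF S (ori S) κs xs) := by
  obtain ⟨C1, h1, H1⟩ := RR_bd h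
  obtain ⟨C2, h2, H2⟩ := RR_bd' h hS
  refine ⟨C1 + C2, by linarith, fun N hN φ hφ j hj => ?_⟩
  have hlog : 0 ≤ 1 + Real.log N := by
    have := Real.log_nonneg (show (1 : ℝ) ≤ N by exact_mod_cast (by omega : 1 ≤ N))
    linarith
  by_cases hc : ∀ κ b1 b3, RP S (fun v => Real.pi * j v / (N - 1)) κ b1 b3 →
      EP S (fun v => Real.pi * j v / (N - 1)) κ b1 b3 ≤ VF S (ori S) κs xs
  · refine (H1 N hN φ hφ j _ hj hc).trans (Real.exp_le_exp.2 ?_)
    nlinarith
  · push Not at hc
    obtain ⟨κ, b1, b3, hp, hlt⟩ := hc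
    refine (H2 N hN φ hφ j (VF S (ori S) κs xs) hj fun κ' b1' b3' hp' => ?_).trans
      (Real.exp_le_exp.2 ?_)
    · by_cases hj2 : ∃ v : Fin S.length, Real.pi * (j v : ℝ) / (N - 1) ≠ Real.pi / 2
      · have := EP_lt h hS hA hmax hp hp' hj2
        linarith
      · push Not at hj2
        exfalso
        have e : (fun v : Fin S.length => Real.pi * (j v : ℝ) / (N - 1)) =
            fun _ => Real.pi / 2 := funext hj2
        rw [e] at hp hlt
        obtain ⟨x, hx, hle⟩ := EP_half h hS hp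
        have hV : VF S (ori S) κ x ≤ VF S (ori S) κs xs := by
          by_cases e2 : (κ, x) = (κs, xs)
          · rw [Prod.mk.injEq] at e2
            rw [e2.1, e2.2]
          · exact (hmax κ x hx e2).le
        linarith
    · nlinarith

theorem ga_RD {S : Sk} (h : Fits S 1) (hS : S ≠ []) {κs : Fin S.length → Fin 4 → ℝ}
    {xs : Fin S.length → ℝ} (hA : Ang S (ori S) κs xs)
    (hmax : ∀ κ' x', CAng S (ori S) κ' x' → (κ', x') ≠ (κs, xs) →
      VF S (ori S) κ' x' < VF S (ori S) κs xs) : ∃ C : ℝ, 0 < C ∧ ∀ N : ℕ, 2 ≤ N →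
    ∀ (j : Fin S.length → ℕ) (D : Fin S.length → Bool), (∀ v, j v < N) →
    (∀ v, D v = true → 2 * j v + 1 ≠ N) → ‖RD N S j D‖ ≤
      Real.exp (C * (1 + Real.log N) + N / Real.pi * VF S (ori S) κs xs) := by
  obtain ⟨C, hC, H⟩ := ga_RR h hS hA hmax
  have hn0 : (0 : ℝ) ≤ S.length := Nat.cast_nonneg _
  have hl8 : 0 ≤ Real.log (8 * (S.length + 2)) := Real.log_nonneg (by linarith)
  refine ⟨C + S.length * (Real.log (8 * (S.length + 2)) + 2), by positivity,
    fun N hN j D hj hD => ?_⟩
  have hNp : (0 : ℝ) < N := by positivity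
  have hlog : 0 ≤ Real.log N := Real.log_nonneg (by exact_mod_cast (by omega : 1 ≤ N))
  refine (RD_max h hN hj hD (B := Real.exp (C * (1 + Real.log N) +
    N / Real.pi * VF S (ori S) κs xs)) fun ε hε j' hj' => ?_).trans ?_
  · refine H N hN _ (rad_Sm hN S hε) j' fun v => ?_
    have := hj v
    rcases hj' v with e | e <;> omega
  · have e1 : (8 * (N : ℝ) ^ 2 * (S.length + 2)) ^ S.length =
        Real.exp (S.length * (Real.log (8 * (S.length + 2)) + 2 * Real.log N)) := by
      rw [Real.exp_nat_mul, Real.exp_add, Real.exp_log (by positivity),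
        show (2 : ℝ) * Real.log N = ((2 : ℕ) : ℝ) * Real.log N by norm_num, Real.exp_nat_mul,
        Real.exp_log hNp]
      congr 1
      ring
    rw [e1, ← Real.exp_add]
    apply Real.exp_le_exp.2
    have h3 : 0 ≤ (S.length : ℝ) * (Real.log (8 * (S.length + 2)) * Real.log N) := by positivity
    nlinarith

/-- **An upper bound for all numbers of crossings**, uniform in the numbers of crossings. -/
theorem growth_unif {S : Sk} (h : Fits S 1) (hS : S ≠ []) {κs : Fin S.length → Fin 4 → ℝ}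
    {xs : Fin S.length → ℝ} (hA : Ang S (ori S) κs xs)
    (hmax : ∀ κ' x', CAng S (ori S) κ' x' → (κ', x') ≠ (κs, xs) →
      VF S (ori S) κ' x' < VF S (ori S) κs xs) : ∃ C : ℝ, 0 < C ∧
    ∀ (a : ℕ → ℤ) (N : ℕ), 2 ≤ N → ‖GSum N (setA S a)‖ ≤
      (∏ v : Fin S.length, (1 + |(a v : ℝ)|)) *
        Real.exp (C * (1 + Real.log N) + N / Real.pi * VF S (ori S) κs xs) := by
  classical
  obtain ⟨C, hC, H⟩ := ga_RD h hS hA hmax
  obtain ⟨Q, hQ⟩ := sk_param h hS (ang_tight (ori S) hA) (ori S)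
  have hn0 : (0 : ℝ) ≤ S.length := Nat.cast_nonneg _
  have hl4 : 0 ≤ Real.log 4 := Real.log_nonneg (show (1 : ℝ) ≤ 4 by norm_num)
  refine ⟨C + S.length * (Real.log 4 + 2), by positivity, fun a N hN => ?_⟩
  have hNp : (0 : ℝ) < N := by positivity
  have hN1 : (1 : ℝ) ≤ N := by exact_mod_cast (by omega : 1 ≤ N)
  have hlog : 0 ≤ Real.log N := Real.log_nonneg hN1
  choose α β hab hf using fun v : Fin S.length => ga_nodes (show 1 ≤ N by omega) (a v) (nth S v).k
  set γ : Fin S.length → Bool → ℕ → ℂ := fun v b j => if b then β v j else α v j with hγ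
  have hpos : ∀ v : Fin S.length, 0 ≤ 1 + |(a v : ℝ)| := fun v => by positivity
  have g1 : ∀ (v : Fin S.length) (b : Bool), ∀ j < N, ‖γ v b j‖ ≤ 2 * N * (1 + |(a v : ℝ)|) := by
    intro v b j hj
    obtain ⟨h1, h2, -⟩ := hab v j hj
    have h0 := abs_nonneg (a v : ℝ)
    have h4 : 1 ≤ (N : ℝ) * (1 + |(a v : ℝ)|) := by nlinarith
    cases b
    · simp only [hγ, Bool.false_eq_true, if_false]
      linarith
    · simp only [hγ, if_true]
      linarith
  have g2 : ∀ (v : Fin S.length), ∀ j < N, 2 * j + 1 = N → γ v true j = 0 := by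
    intro v j hj h2
    simp only [hγ, if_true]
    exact (hab v j hj).2.2 h2
  have g3 : ∀ (v : Fin S.length) (i : ℕ), Fu N (a v) (nth S v).k (P N i) =
      ∑ j ∈ range N, ∑ b : Bool, γ v b j * PD1 N b j i := by
    intro v i
    rw [hf v _ (P_diff N i)]
    refine Finset.sum_congr rfl fun j _ => ?_
    rw [Fintype.sum_bool]
    simp only [hγ, PD1, if_true, Bool.false_eq_true, if_false]
    ring
  have e1 : GSum N (setA S a) = (∑ j : Fin S.length → Fin N, ∑ D : Fin S.length → Bool,
      (∏ v, γ v (D v) (j v)) * RD N S (fun v => j v) D) / (N : ℂ) ^ (2 * S.length) := by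
    rw [gsum_Z h hS Q hQ a hN]
    have e2 : (Q.pd (ori S)).Z N (fun (v : Fin S.length) i => Fu N (a v) (nth S v).k (P N i)) =
        ∑ j : Fin S.length → Fin N, ∑ D : Fin S.length → Bool, (∏ v, γ v (D v) (j v)) *
          (Q.pd (ori S)).Z N (fun (v : Fin S.length) i => PD1 N (D v) (j v) i) := by
      have e3 : (fun (v : Fin S.length) i => Fu N (a v) (nth S v).k (P N i)) =
          fun (v : Fin S.length) i => ∑ j ∈ range N, ∑ b : Bool, γ v b j * PD1 N b j i := by
        funext v i
        exact g3 v i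
      rw [e3]
      exact Z_expand (Q.pd (ori S)) N (fun (v : Fin S.length) => γ v)
    rw [e2, Finset.mul_sum, Finset.sum_div]
    refine Finset.sum_congr rfl fun j _ => ?_
    rw [Finset.mul_sum, Finset.sum_div]
    refine Finset.sum_congr rfl fun D _ => ?_
    rw [RD_Z h hS Q hQ hN]
    ring
  set E : ℝ := Real.exp (C * (1 + Real.log N) + N / Real.pi * VF S (ori S) κs xs) with hE
  have hE0 : 0 < E := Real.exp_pos _
  set A : ℝ := ∏ v : Fin S.length, (1 + |(a v : ℝ)|) with hAd
  have hA0 : 0 ≤ A := Finset.prod_nonneg fun v _ => hpos v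
  have hB : 0 ≤ ((2 * (N : ℝ)) ^ S.length * A) * E := by positivity
  have h4 : ∀ (j : Fin S.length → Fin N) (D : Fin S.length → Bool),
      ‖(∏ v, γ v (D v) (j v)) * RD N S (fun v => j v) D‖ ≤
        ((2 * (N : ℝ)) ^ S.length * A) * E := by
    intro j D
    by_cases hD : ∀ v, D v = true → 2 * (j v : ℕ) + 1 ≠ N
    · rw [norm_mul]
      refine mul_le_mul ?_ (H N hN (fun v => j v) D (fun v => (j v).2) hD) (norm_nonneg _)
        (by positivity)
      rw [_root_.norm_prod]
      calc ∏ v, ‖γ v (D v) (j v)‖ ≤ ∏ v : Fin S.length, 2 * (N : ℝ) * (1 + |(a v : ℝ)|) :=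
            Finset.prod_le_prod (fun v _ => norm_nonneg _) fun v _ => g1 v (D v) (j v) (j v).2
        _ = _ := by
            rw [Finset.prod_mul_distrib, Finset.prod_const, Finset.card_univ, Fintype.card_fin]
    · push Not at hD
      obtain ⟨v, hv, hv2⟩ := hD
      have : ∏ v, γ v (D v) (j v) = 0 := by
        refine Finset.prod_eq_zero (Finset.mem_univ v) ?_
        rw [hv]
        exact g2 v _ (j v).2 hv2
      rw [this, zero_mul, norm_zero]
      exact hB
  have h5 : ‖(N : ℂ) ^ (2 * S.length)‖ = (N : ℝ) ^ (2 * S.length) := by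
    rw [norm_pow, Complex.norm_natCast]
  have h6 : (1 : ℝ) ≤ (N : ℝ) ^ (2 * S.length) := one_le_pow₀ hN1
  rw [e1, norm_div, h5]
  calc ‖∑ j : Fin S.length → Fin N, ∑ D : Fin S.length → Bool,
        (∏ v, γ v (D v) (j v)) * RD N S (fun v => j v) D‖ / (N : ℝ) ^ (2 * S.length)
      ≤ ‖∑ j : Fin S.length → Fin N, ∑ D : Fin S.length → Bool,
        (∏ v, γ v (D v) (j v)) * RD N S (fun v => j v) D‖ := div_le_self (norm_nonneg _) h6
    _ ≤ ∑ j : Fin S.length → Fin N, ∑ D : Fin S.length → Bool,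
        ‖(∏ v, γ v (D v) (j v)) * RD N S (fun v => j v) D‖ :=
        (norm_sum_le _ _).trans (Finset.sum_le_sum fun j _ => norm_sum_le _ _)
    _ ≤ ∑ _j : Fin S.length → Fin N, ∑ _D : Fin S.length → Bool,
        (((2 * (N : ℝ)) ^ S.length * A) * E) :=
        Finset.sum_le_sum fun j _ => Finset.sum_le_sum fun D _ => h4 j D
    _ = A * ((4 * (N : ℝ) ^ 2) ^ S.length * E) := by
        rw [Finset.sum_const, Finset.sum_const, Finset.card_univ, Finset.card_univ,
          Fintype.card_fun, Fintype.card_fun, Fintype.card_fin, Fintype.card_fin,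
          Fintype.card_bool, nsmul_eq_mul, nsmul_eq_mul]
        push_cast
        rw [show 4 * (N : ℝ) ^ 2 = N * (2 * (2 * N)) by ring]
        simp only [mul_pow]
        ring
    _ ≤ _ := by
        refine mul_le_mul_of_nonneg_left ?_ hA0
        have e4 : (4 * (N : ℝ) ^ 2) ^ S.length =
            Real.exp (S.length * (Real.log 4 + 2 * Real.log N)) := by
          rw [Real.exp_nat_mul, Real.exp_add, Real.exp_log (by norm_num),
            show (2 : ℝ) * Real.log N = ((2 : ℕ) : ℝ) * Real.log N by norm_num, Real.exp_nat_mul,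
            Real.exp_log hNp]
        rw [e4, hE, ← Real.exp_add]
        apply Real.exp_le_exp.2
        have h8 : 0 ≤ (S.length : ℝ) * (Real.log 4 * Real.log N) := by positivity
        nlinarith

end Pool.Agent.FAR
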