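import Pool.Agent.Lib_helper91.BT.Defs

/-!
# The links on a skeleton
-/

set_option autoImplicit false

namespace Pool.Agent.FAR

open Pool.Agent.BT

/-- The skeleton `S` with `a v` half twists at the vertex number `v`, encircled by a component if
`k v = true`; the numbers of half twists and the circles of `S` itself are forgotten. -/
def dress : Sk → (ℕ → ℤ) → (ℕ → Bool) → Sk
  | [], _, _ => []
  | b :: S, a, k => { b with a := a 0, k := k 0 } ::
      dress S (fun i => a (i + 1)) fun i => k (i + 1)

theorem dress_fits {S : Sk} {m : ℕ} (h : Fits S m) (a : ℕ → ℤ) (k : ℕ → Bool) :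
    Fits (dress S a k) m := by
  induction S generalizing m a k with
  | nil => exact h
  | cons b S ih => exact ⟨h.1, ih h.2 _ _⟩

end Pool.Agent.FAR
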