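import Pool.Agent.Lib_helper14.FAR.GH
import Pool.Agent.Lib_helper43.FARF.FinN

/-!
# The growth of the Kashaev invariants of all the links on a skeleton
-/

set_option autoImplicit false

open Complex Pool.Agent.VCdt.Geo Pool.Agent.VCdt.HV Filter Topology Pool.Agent.Lib_helper77.VC

namespace Pool.Agent.FAR

open Pool.Agent.TB Pool.Agent.BT

theorem gf_red {S : Sk} (a : ℕ → ℤ) (k : ℕ → Bool) (h : Red S) : Red (dress S a k) := by
  obtain ⟨h1, h2⟩ := h
  constructor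
  · intro v hv v' hv' j j' hj hj' hne
    rw [dress_length] at hv hv'
    rw [dress_nth S a k hv] at hj
    rw [dress_nth S a k hv'] at hj'
    simp only [dress_cl]
    exact h1 v hv v' hv' j j' hj hj' hne
  · intro v hv v' hv' hne
    rw [dress_length] at hv hv'
    simp only [dress_cl, (cor_dress S a k).ori v hv, (cor_dress S a k).ori v' hv']
    exact h2 v hv v' hv' hne

theorem gf_ne {S : Sk} (a : ℕ → ℤ) (k : ℕ → Bool) (h : S ≠ []) : dress S a k ≠ [] := by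
  intro h0
  apply h
  have h1 := dress_length S a k
  rw [h0] at h1
  exact List.length_eq_zero_iff.1 h1.symm

theorem gf_cor (S : Sk) (a a' : ℕ → ℤ) (k k' : ℕ → Bool) :
    cor_E (dress S a k) (dress S a' k') :=
  cor_trans (cor_symm (cor_dress S a k)) (cor_dress S a' k')

theorem gf_cang {S : Sk} {o : ℕ → Bool} {κ : Fin S.length → Fin 4 → ℝ} {x : Fin S.length → ℝ}
    (h : Ang S o κ x) : CAng S o κ x :=
  ⟨h.lin, fun v => ⟨(h.col v).1.le, (h.col v).2.le⟩,
    fun v k h1 h2 => ⟨(h.pos v k h1 h2).1.le, (h.pos v k h1 h2).2.le⟩⟩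

/-- The volume of the fully augmented link. -/
theorem gf_vol {S : Sk} (h : Fits S 1) (hS : S ≠ []) (hR : Red S)
    (hk : ∀ v < S.length, (nth S v).k = true) : ∃ V : ℝ, MaxV S V ∧ 0 < V ∧
    ∃ (ι : Type) (_ : Fintype ι) (T : Tr ι) (z : ι → ℂ) (tree : Finset (ι × Fin 4)),
      T.IsHyp ∅ z ∧ T.IsMaxTree tree ∧
      Nonempty (PresentedGroup (wirtRels (diag S h)) ≃*
        PresentedGroup (T.rels (tree : Set (ι × Fin 4)))) ∧
      ∑ t, (hypVol (idealTet (z t))).toReal = V := by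
  obtain ⟨κs, xs, ms, rs, hA, hM, hle, -, -⟩ := sk_growth h hS (red_ang h hS hR)
  have hA' : Ang S (ori S) (fun v k => exF κs v k) (fun v => exF xs v) := by
    simp only [exF_val]
    exact hA
  have hM' : MSol S (fun v k => ((exF κs v k : ℝ) : ℂ)) (fun v => ((exF xs v : ℝ) : ℂ))
      (fun v => (0 : ℕ → ℂ) v) (fun v => ((exF ms v : ℝ) : ℂ)) (fun f => (rs f : ℂ)) := by
    simp only [exF_val]
    exact hM
  obtain ⟨ι, hι, T, z, tree, h1, h2, h3, h4, h5⟩ :=
    aug_geo h hS hk (exF κs) (exF xs) (exF ms) rs hA' hM'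
  refine ⟨2 * VF S (ori S) κs xs, ⟨⟨κs, xs, gf_cang hA, rfl⟩, fun κ x hC => ?_⟩, ?_,
    ι, hι, T, z, tree, h1, h2, h3, ?_⟩
  · have := hle κ x hC
    linarith
  · rw [h5] at h4
    simp only [exF_val] at h4
    exact h4
  · rw [h5]
    simp only [exF_val]

/-- The bounds for one skeleton. -/
theorem gf_one {S : Sk} (h : Fits S 1) (hS : S ≠ []) (hR : Red S) :
    ∃ (V : ℝ) (C : ℕ) (A : ℝ → ℕ), MaxV S V ∧
    (∀ (a : ℕ → ℤ) (N : ℕ), 2 ≤ N → ‖GSum N (setA S a)‖ ≤ C * (N : ℝ) ^ C *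
      (∏ v ∈ Finset.range S.length, (1 + |(a v : ℝ)|)) * Real.exp (N / (2 * Real.pi) * V)) ∧
    ∀ ε : ℝ, 0 < ε → ∀ a : ℕ → ℤ,
      (∀ v < S.length, (nth S v).k = false → (A ε : ℤ) ≤ |a v|) →
      ∀ᶠ N : ℕ in atTop, Real.exp (N / (2 * Real.pi) * (V - ε)) ≤ ‖GSum N (setA S a)‖ := by
  classical
  obtain ⟨κs, xs, ms, rs, hA, hM, hle, ⟨C, hC, hup⟩, hlow⟩ := sk_growth h hS (red_ang h hS hR)
  have hlow' : ∀ ε : ℝ, ∃ a₀ : ℕ, 0 < ε → ∀ a : ℕ → ℤ,
      (∀ v < S.length, (nth S v).k = false → (a₀ : ℤ) ≤ |a v|) →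
      ∀ᶠ N : ℕ in atTop, Real.exp (N / (2 * Real.pi) * (2 * VF S (ori S) κs xs - ε)) ≤
        ‖GSum N (setA S a)‖ := by
    intro ε
    by_cases hε : 0 < ε
    · obtain ⟨a₀, ha₀⟩ := hlow ε hε
      exact ⟨a₀, fun _ => ha₀⟩
    · exact ⟨0, fun h => absurd h hε⟩
  choose A hAε using hlow'
  refine ⟨2 * VF S (ori S) κs xs, ⌈Real.exp C⌉₊, A, ⟨⟨κs, xs, gf_cang hA, rfl⟩, fun κ x hC' => ?_⟩,
    fun a N hN => ?_, fun ε hε => hAε ε hε⟩
  · have := hle κ x hC'
    linarith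
  · refine (hup a N hN).trans ?_
    have hN1 : (1 : ℝ) ≤ N := by exact_mod_cast (by omega : 1 ≤ N)
    have hNp : (0 : ℝ) < N := by linarith
    have hc1 : Real.exp C ≤ (⌈Real.exp C⌉₊ : ℝ) := Nat.le_ceil _
    have hc2 : C ≤ (⌈Real.exp C⌉₊ : ℝ) := by
      have := Real.add_one_le_exp C
      linarith
    have e1 : ∏ v : Fin S.length, (1 + |(a v : ℝ)|) =
        ∏ v ∈ Finset.range S.length, (1 + |(a v : ℝ)|) :=
      Fin.prod_univ_eq_prod_range (fun v => 1 + |(a v : ℝ)|) S.length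
    have hP : 0 ≤ ∏ v ∈ Finset.range S.length, (1 + |(a v : ℝ)|) :=
      Finset.prod_nonneg fun v _ => by positivity
    have e2 : Real.exp (C * (1 + Real.log N) + N / Real.pi * VF S (ori S) κs xs) =
        Real.exp C * (N : ℝ) ^ C * Real.exp (N / (2 * Real.pi) * (2 * VF S (ori S) κs xs)) := by
      rw [Real.rpow_def_of_pos hNp, ← Real.exp_add, ← Real.exp_add]
      congr 1
      field_simp
    have e3 : (N : ℝ) ^ C ≤ (N : ℝ) ^ ⌈Real.exp C⌉₊ := by
      rw [← Real.rpow_natCast]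
      exact Real.rpow_le_rpow_of_exponent_le hN1 hc2
    rw [e1, e2]
    calc (∏ v ∈ Finset.range S.length, (1 + |(a v : ℝ)|)) * (Real.exp C * (N : ℝ) ^ C *
          Real.exp (N / (2 * Real.pi) * (2 * VF S (ori S) κs xs)))
        = (Real.exp C * (N : ℝ) ^ C) * ((∏ v ∈ Finset.range S.length, (1 + |(a v : ℝ)|)) *
          Real.exp (N / (2 * Real.pi) * (2 * VF S (ori S) κs xs))) := by ring
      _ ≤ ((⌈Real.exp C⌉₊ : ℝ) * (N : ℝ) ^ ⌈Real.exp C⌉₊) *
          ((∏ v ∈ Finset.range S.length, (1 + |(a v : ℝ)|)) *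
          Real.exp (N / (2 * Real.pi) * (2 * VF S (ori S) κs xs))) := by
          refine mul_le_mul_of_nonneg_right (mul_le_mul hc1 e3 (by positivity) (by positivity)) ?_
          positivity
      _ = _ := by ring

theorem gf_kash {N : ℕ} (hN : 2 ≤ N) {S : Sk} (h : Fits S 1) :
    kashaev N (diag S h) = GSum N S := by
  rw [← ssum_global hN S h]
  exact exactBT N _ _ hN

/-- **The growth of the Kashaev invariants of all the links on a skeleton.** -/
theorem growth_n (n : ℕ) : ∃ (C : ℕ) (A : ℝ → ℕ), ∀ (S : Sk) (h : Fits S 1), S ≠ [] →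
    S.length = n → Red S → ∃ V : ℝ, 0 < V ∧ ∀ a : ℕ → ℤ,
      (∃ (ι : Type) (_ : Fintype ι) (T : Tr ι) (z : ι → ℂ) (tree : Finset (ι × Fin 4)),
        T.IsHyp ∅ z ∧ T.IsMaxTree tree ∧
        Nonempty (PresentedGroup (wirtRels (diag (dress S a fun _ => true) (dress_fits h a _))) ≃*
          PresentedGroup (T.rels (tree : Set (ι × Fin 4)))) ∧
        ∑ t, (hypVol (idealTet (z t))).toReal = V) ∧
      ∀ k : ℕ → Bool,
        (∀ N : ℕ, 2 ≤ N → ‖kashaev N (diag (dress S a k) (dress_fits h a k))‖ ≤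
          C * (N : ℝ) ^ C * (∏ v ∈ Finset.range n, (1 + |(a v : ℝ)|)) *
            Real.exp (N / (2 * Real.pi) * V)) ∧
        ∀ ε : ℝ, 0 < ε → (∀ v < n, k v = false → (A ε : ℤ) ≤ |a v|) →
          ∀ᶠ N : ℕ in atTop, Real.exp (N / (2 * Real.pi) * (V - ε)) ≤
            ‖kashaev N (diag (dress S a k) (dress_fits h a k))‖ := by
  classical
  have hex : ∀ S : Sk, ∃ (C : ℕ) (A : ℝ → ℕ), ∀ (_ : Fits S 1) (_ : S ≠ []) (_ : Red S),
      ∃ V : ℝ, MaxV S V ∧
      (∀ (a : ℕ → ℤ) (N : ℕ), 2 ≤ N → ‖GSum N (setA S a)‖ ≤ C * (N : ℝ) ^ C *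
        (∏ v ∈ Finset.range S.length, (1 + |(a v : ℝ)|)) * Real.exp (N / (2 * Real.pi) * V)) ∧
      ∀ ε : ℝ, 0 < ε → ∀ a : ℕ → ℤ,
        (∀ v < S.length, (nth S v).k = false → (A ε : ℤ) ≤ |a v|) →
        ∀ᶠ N : ℕ in atTop, Real.exp (N / (2 * Real.pi) * (V - ε)) ≤ ‖GSum N (setA S a)‖ := by
    intro S
    by_cases h : Fits S 1 ∧ S ≠ [] ∧ Red S
    · obtain ⟨V, C, A, h1, h2, h3⟩ := gf_one h.1 h.2.1 h.2.2
      exact ⟨C, A, fun _ _ _ => ⟨V, h1, h2, h3⟩⟩
    · exact ⟨0, fun _ => 0, fun h1 h2 h3 => absurd ⟨h1, h2, h3⟩ h⟩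
  choose C A hCA using hex
  refine ⟨(shapes_finite n).toFinset.sup C, fun ε => (shapes_finite n).toFinset.sup fun S => A S ε,
    fun S h hS hn hR => ?_⟩
  obtain ⟨V, hV, hV0, -⟩ := gf_vol (dress_fits h (fun _ => 0) fun _ => true)
    (gf_ne _ _ hS) (gf_red _ _ hR) (fun v hv => by
      rw [dress_length] at hv
      rw [dress_nth S _ _ hv])
  refine ⟨V, hV0, fun a => ⟨?_, fun k => ?_⟩⟩
  · obtain ⟨V', hV', -, hh⟩ := gf_vol (dress_fits h a fun _ => true)
      (gf_ne _ _ hS) (gf_red _ _ hR) (fun v hv => by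
        rw [dress_length] at hv
        rw [dress_nth S _ _ hv])
    rw [MaxV_eq (gf_cor S (fun _ => 0) a _ _) hV hV']
    exact hh
  · set S₀ : Sk := dress S (fun _ => 0) k with hS₀
    have hf₀ : Fits S₀ 1 := dress_fits h _ _
    have hlen : S₀.length = n := by rw [hS₀, dress_length, hn]
    have e0 : setA S₀ (fun _ => 0) = S₀ := by rw [hS₀, dress_setA]
    have hmem : S₀ ∈ shapes n := by
      refine ⟨hlen, ?_⟩
      have := shape_mem (B := 2 * n + 2) hf₀ (by omega)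
      rw [e0] at this
      exact this
    have hmem' : S₀ ∈ (shapes_finite n).toFinset := (shapes_finite n).mem_toFinset.2 hmem
    obtain ⟨V', hV', hup, hlow⟩ := hCA S₀ hf₀ (gf_ne _ _ hS) (gf_red _ _ hR)
    have hVV : V' = V := MaxV_eq (gf_cor S (fun _ => 0) (fun _ => 0) k fun _ => true) hV' hV
    subst hVV
    have e1 : dress S a k = setA S₀ a := by rw [hS₀, dress_setA]
    refine ⟨fun N hN => ?_, fun ε hε ha => ?_⟩
    · rw [gf_kash hN, e1]
      refine (hup a N hN).trans ?_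
      rw [hlen]
      have hN1 : (1 : ℝ) ≤ N := by exact_mod_cast (by omega : 1 ≤ N)
      have hle : C S₀ ≤ (shapes_finite n).toFinset.sup C := Finset.le_sup hmem'
      have hle' : (C S₀ : ℝ) ≤ ((shapes_finite n).toFinset.sup C : ℕ) := by exact_mod_cast hle
      have hP : 0 ≤ ∏ v ∈ Finset.range n, (1 + |(a v : ℝ)|) :=
        Finset.prod_nonneg fun v _ => by positivity
      refine mul_le_mul_of_nonneg_right (mul_le_mul_of_nonneg_right (mul_le_mul hle'
        (pow_le_pow_right₀ hN1 hle) (by positivity) (by positivity)) hP) (Real.exp_pos _).le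
    · have hle : A S₀ ε ≤ (shapes_finite n).toFinset.sup fun S => A S ε :=
        Finset.le_sup (f := fun S => A S ε) hmem'
      have h1 := hlow ε hε a (fun v hv hk => by
        rw [hlen] at hv
        rw [hS₀, dress_nth S _ _ (by rw [hn]; exact hv)] at hk
        exact le_trans (by exact_mod_cast hle) (ha v hv hk))
      filter_upwards [h1, eventually_ge_atTop 2] with N hN hN2
      rw [gf_kash hN2, e1]
      exact hN

end Pool.Agent.FAR
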