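import Pool.Agent.Lib_helper14.FAR.GA
import Pool.Agent.Lib_helper43.TB.B.FIN

/-!
# Project FAR: the growth of the Kashaev invariants, upper and lower bounds
-/

set_option autoImplicit false

open Finset Filter Topology Pool.Agent.Lib_helper77.VC Pool.Agent.TB Pool.Agent.BT
  Pool.Agent.VCdt.V83

namespace Pool.Agent.FAR

theorem vv_Lbc {x : ℝ} (h0 : 0 < x) (h1 : x < Real.pi) : Lbc (x : ℂ) = ((Lob x : ℝ) : ℂ) := by
  unfold Lbc
  rw [Lc_Lob h0 h1]
  push_cast
  ring

theorem vv_sl (o : Bool) (x : ℝ) (k : ℕ) :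
    sl o (Real.pi : ℂ) (x : ℂ) k = ((sl o Real.pi x k : ℝ) : ℂ) := by
  unfold sl
  split_ifs <;> push_cast <;> rfl

theorem vv_sum (o : Bool) (x : ℝ) : ∑ k : Fin 4, Lob (sl o Real.pi x k) = 0 := by
  rw [Fin.sum_univ_four]
  cases o <;> simp [sl, sg, Lob_pi_sub]

/-- the complex volume function at the real solution -/
theorem vc_vf {S : Sk} {κs : Fin S.length → Fin 4 → ℝ} {xs : Fin S.length → ℝ}
    (hA : Ang S (ori S) κs xs) :
    VC S (fun v k => (κs v k : ℂ)) (fun v => (xs v : ℂ)) 0 =
      ((VF S (ori S) κs xs : ℝ) : ℂ) := by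
  have hpi := Real.pi_pos
  unfold VC VF
  push_cast
  rw [add_comm]
  refine congrArg₂ _ (sum_congr rfl fun v _ => ?_) (sum_congr rfl fun v _ => ?_)
  · by_cases hv : isEnd S v = false
    · rw [if_pos hv]
      have e1 : ∀ k : Fin 4, 0 < sl (ori S v) Real.pi (xs v) k ∧
          sl (ori S v) Real.pi (xs v) k < Real.pi := fun k => by
        have := hA.col v
        unfold sl
        split_ifs
        · exact ⟨by linarith, by linarith⟩
        · exact ⟨by linarith, by linarith⟩
      have e2 : ∀ k : Fin 4, (Lbc (Real.pi - sl (ori S v) (Real.pi : ℂ) (xs v) k - κs v k) +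
          if face S v k = none then 0 else Lbc (κs v k)) =
          (((if isEnd S v = false ∧ face S v k ≠ none then
            BT.v3 (κs v k) (sl (ori S v) Real.pi (xs v) k) else 0) -
              Lob (sl (ori S v) Real.pi (xs v) k) : ℝ) : ℂ) := by
        intro k
        rw [vv_sl]
        have e3 : (Real.pi : ℂ) - ((sl (ori S v) Real.pi (xs v) k : ℝ) : ℂ) - κs v k =
            ((Real.pi - sl (ori S v) Real.pi (xs v) k - κs v k : ℝ) : ℂ) := by push_cast; ring
        rw [e3]
        have h1 := e1 k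
        by_cases hf : face S v k = none
        · have h2 := hA.lin.out v k hf
          rw [if_pos hf, if_neg (fun h => h.2 hf), h2, sub_zero, vv_Lbc (by linarith)
            (by linarith), Lob_pi_sub]
          push_cast
          ring
        · have h2 := hA.pos v k hv hf
          rw [if_neg hf, if_pos ⟨hv, hf⟩, vv_Lbc (by linarith) (by linarith),
            vv_Lbc h2.1 (by linarith)]
          unfold BT.v3
          rw [show Real.pi - sl (ori S v) Real.pi (xs v) k - κs v k =
            Real.pi - κs v k - sl (ori S v) Real.pi (xs v) k by ring]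
          push_cast
          ring
      rw [sum_congr rfl fun k _ => e2 k, ← Complex.ofReal_sum, sum_sub_distrib, vv_sum, sub_zero]
      push_cast
      rfl
    · rw [if_neg hv, sum_eq_zero fun k _ => ?_]
      rw [if_neg fun h => hv h.1]
      simp
  · have h1 := hA.col v
    simp only [Pi.zero_apply, zero_div, sub_zero, add_zero]
    have e1 : (Real.pi : ℂ) / 2 - (xs v : ℂ) = ((Real.pi / 2 - xs v : ℝ) : ℂ) := by
      push_cast; ring
    rw [e1, vv_Lbc h1.1 (by linarith), vv_Lbc (by linarith) (by linarith)]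
    unfold oct
    push_cast
    ring

theorem gl_Lbc {E : Type} [TopologicalSpace E] {f : E → ℂ} {q : E} {t : ℝ} (hf : ContinuousAt f q)
    (ht : f q = (t : ℂ)) (h0 : 0 < t) (h1 : t < Real.pi) : ContinuousAt (fun p => Lbc (f p)) q := by
  unfold Lbc
  have h2 : ContinuousAt Lc (f q - Real.pi / 2) := by
    refine (Lc_hasDeriv ?_).continuousAt
    rw [ht]
    have e : ((t : ℂ) - Real.pi / 2).re = t - Real.pi / 2 := by
      rw [show (t : ℂ) - Real.pi / 2 = ((t - Real.pi / 2 : ℝ) : ℂ) by push_cast; ring,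
        Complex.ofReal_re]
    rw [e, abs_lt]
    constructor <;> linarith
  have h3 : ContinuousAt (fun p => f p - (Real.pi : ℂ) / 2) q := hf.sub continuousAt_const
  exact (ContinuousAt.comp (f := fun p => f p - (Real.pi : ℂ) / 2) (g := Lc) h2 h3).neg

theorem gl_log {E : Type} [TopologicalSpace E] {f : E → ℂ} {q : E} {t : ℝ} (hf : ContinuousAt f q)
    (ht : f q = (t : ℂ)) (h0 : 0 < t) (h1 : t < Real.pi / 2) :
    ContinuousAt (fun p => Complex.log (Complex.cos (f p))) q := by
  refine ContinuousAt.clog (Complex.continuous_cos.continuousAt.comp hf) ?_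
  show Complex.cos (f q) ∈ Complex.slitPlane
  rw [ht, ← Complex.ofReal_cos]
  left
  rw [Complex.ofReal_re]
  exact Real.cos_pos_of_mem_Ioo ⟨by linarith, h1⟩

/-- the exponent, as a continuous function -/
noncomputable def glG (S : Sk) (q : (Fin S.length → Fin 4 → ℂ) × (Fin S.length → ℂ) ×
    (Fin S.length → ℂ)) : ℂ :=
  2 * Complex.I * VC S q.1 q.2.1 q.2.2 - ∑ v : Fin S.length, (if (nth S v).k = false then
    q.2.2 v / 2 * ((Complex.log (Complex.cos (q.2.1 v - q.2.2 v / 2)) -
      Complex.log (Complex.cos (q.2.1 v + q.2.2 v / 2)) - 2 * Real.pi * Complex.I) / Complex.I) +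
      2 * Real.pi * q.2.2 v else 0)

theorem gl_cont {S : Sk} {κs : Fin S.length → Fin 4 → ℝ} {xs : Fin S.length → ℝ}
    (hA : Ang S (ori S) κs xs) :
    ContinuousAt (glG S) (fun v k => (κs v k : ℂ), fun v => (xs v : ℂ), 0) := by
  have hpi := Real.pi_pos
  set q₀ : (Fin S.length → Fin 4 → ℂ) × (Fin S.length → ℂ) × (Fin S.length → ℂ) :=
    (fun v k => (κs v k : ℂ), fun v => (xs v : ℂ), 0) with hq
  have cκ : ∀ (v : Fin S.length) (k : Fin 4), ContinuousAt (fun q : (Fin S.length → Fin 4 → ℂ) ×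
      (Fin S.length → ℂ) × (Fin S.length → ℂ) => q.1 v k) q₀ := fun v k => by fun_prop
  have cx : ∀ v : Fin S.length, ContinuousAt (fun q : (Fin S.length → Fin 4 → ℂ) ×
      (Fin S.length → ℂ) × (Fin S.length → ℂ) => q.2.1 v) q₀ := fun v => by fun_prop
  have cw : ∀ v : Fin S.length, ContinuousAt (fun q : (Fin S.length → Fin 4 → ℂ) ×
      (Fin S.length → ℂ) × (Fin S.length → ℂ) => q.2.2 v) q₀ := fun v => by fun_prop
  have cs : ∀ (v : Fin S.length) (k : ℕ), ContinuousAt (fun q : (Fin S.length → Fin 4 → ℂ) ×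
      (Fin S.length → ℂ) × (Fin S.length → ℂ) =>
        sl (ori S v) (Real.pi : ℂ) (q.2.1 v) k) q₀ := by
    intro v k
    unfold sl
    split_ifs
    · exact cx v
    · exact continuousAt_const.sub (cx v)
  have es : ∀ (v : Fin S.length) (k : ℕ), sl (ori S v) (Real.pi : ℂ) (q₀.2.1 v) k =
      ((sl (ori S v) Real.pi (xs v) k : ℝ) : ℂ) := by
    intro v k
    unfold sl
    split_ifs
    · rfl
    · simp only [hq]
      push_cast
      rfl
  unfold glG VC
  refine ContinuousAt.sub (continuousAt_const.mul (ContinuousAt.add ?_ ?_)) ?_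
  · refine tendsto_finsetSum _ fun v _ => ?_
    have h1 := hA.col v
    refine ContinuousAt.add (ContinuousAt.add (continuousAt_const.mul
      (gl_Lbc (cx v) (t := xs v) rfl h1.1 (by linarith))) ?_) ?_
    · refine gl_Lbc (t := Real.pi / 2 - xs v)
        ((continuousAt_const.sub (cx v)).sub ((cw v).div_const _)) ?_ (by linarith) (by linarith)
      simp [hq]
    · refine gl_Lbc (t := Real.pi / 2 - xs v)
        ((continuousAt_const.sub (cx v)).add ((cw v).div_const _)) ?_ (by linarith) (by linarith)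
      simp [hq]
  · refine tendsto_finsetSum _ fun v _ => ?_
    by_cases hv : isEnd S v = false
    · simp only [if_pos hv]
      refine tendsto_finsetSum _ fun k _ => ?_
      have e1 : 0 < sl (ori S v) Real.pi (xs v) k ∧
          sl (ori S v) Real.pi (xs v) k < Real.pi := by
        have := hA.col v
        unfold sl
        split_ifs
        · exact ⟨by linarith, by linarith⟩
        · exact ⟨by linarith, by linarith⟩
      refine ContinuousAt.add ?_ ?_
      · refine gl_Lbc (t := Real.pi - sl (ori S v) Real.pi (xs v) k - κs v k)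
          ((continuousAt_const.sub (cs v k)).sub (cκ v k)) ?_ ?_ ?_
        · simp only [es]
          simp [hq]
        · by_cases hf : face S v k = none
          · rw [hA.lin.out v k hf]
            linarith
          · linarith [(hA.pos v k hv hf).2]
        · by_cases hf : face S v k = none
          · rw [hA.lin.out v k hf]
            linarith
          · linarith [(hA.pos v k hv hf).1]
      · by_cases hf : face S v k = none
        · simp only [if_pos hf]
          exact continuousAt_const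
        · simp only [if_neg hf]
          have := hA.pos v k hv hf
          exact gl_Lbc (cκ v k) (t := κs v k) rfl this.1 (by linarith)
    · simp only [if_neg hv]
      exact continuousAt_const
  · refine tendsto_finsetSum _ fun v _ => ?_
    by_cases hk : (nth S v).k = false
    · simp only [if_pos hk]
      have h1 := hA.col v
      refine ContinuousAt.add (((cw v).div_const _).mul (ContinuousAt.div_const
        (ContinuousAt.sub (ContinuousAt.sub ?_ ?_) continuousAt_const) _))
        (continuousAt_const.mul (cw v))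
      · refine gl_log (t := xs v) ((cx v).sub ((cw v).div_const _)) ?_ h1.1 h1.2
        simp [hq]
      · refine gl_log (t := xs v) ((cx v).add ((cw v).div_const _)) ?_ h1.1 h1.2
        simp [hq]
    · simp only [if_neg hk]
      exact continuousAt_const

theorem gl_val {S : Sk} {κs : Fin S.length → Fin 4 → ℝ} {xs : Fin S.length → ℝ}
    (hA : Ang S (ori S) κs xs) : glG S (fun v k => (κs v k : ℂ), fun v => (xs v : ℂ), 0) =
      2 * Complex.I * ((VF S (ori S) κs xs : ℝ) : ℂ) := by
  unfold glG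
  rw [← vc_vf hA, sum_eq_zero, sub_zero]
  intro v _
  simp

/-- **Upper and lower bounds for the growth of the Kashaev invariants.** -/
theorem sk_growth {S : Sk} (h : Fits S 1) (hS : S ≠ []) (hA : ∃ κ x, Ang S (ori S) κ x) :
    ∃ (κs : Fin S.length → Fin 4 → ℝ) (xs ms : Fin S.length → ℝ) (rs : ℕ → ℝ),
    Ang S (ori S) κs xs ∧
    MSol S (fun v k => (κs v k : ℂ)) (fun v => (xs v : ℂ)) 0 (fun v => (ms v : ℂ))
      (fun f => (rs f : ℂ)) ∧
    (∀ κ x, CAng S (ori S) κ x → VF S (ori S) κ x ≤ VF S (ori S) κs xs) ∧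
    (∃ C : ℝ, 0 < C ∧ ∀ (a : ℕ → ℤ) (N : ℕ), 2 ≤ N → ‖GSum N (setA S a)‖ ≤
      (∏ v : Fin S.length, (1 + |(a v : ℝ)|)) *
        Real.exp (C * (1 + Real.log N) + N / Real.pi * VF S (ori S) κs xs)) ∧
    ∀ ε : ℝ, 0 < ε → ∃ a₀ : ℕ, ∀ a : ℕ → ℤ,
      (∀ v < S.length, (nth S v).k = false → (a₀ : ℤ) ≤ |a v|) →
      ∀ᶠ N : ℕ in atTop, Real.exp (N / (2 * Real.pi) * (2 * VF S (ori S) κs xs - ε)) ≤
        ‖GSum N (setA S a)‖ := by
  obtain ⟨κs, xs, ms, rs, hAng, hmax, hM, hρ⟩ := sk_asymp2 h hS hA
  have hle : ∀ κ x, CAng S (ori S) κ x → VF S (ori S) κ x ≤ VF S (ori S) κs xs := by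
    intro κ x hC
    by_cases he : (κ, x) = (κs, xs)
    · rw [Prod.mk.injEq] at he
      rw [he.1, he.2]
    · exact (hmax κ x hC he).le
  refine ⟨κs, xs, ms, rs, hAng, hM, hle, growth_unif h hS hAng hmax, fun ε hε => ?_⟩
  have hpi := Real.pi_pos
  obtain ⟨δ, hδ, hball⟩ := Metric.continuousAt_iff.1 (gl_cont hAng) ε hε
  obtain ⟨a₀, ha₀⟩ := hρ (δ / 2) (by linarith)
  refine ⟨a₀, fun a ha => ?_⟩
  obtain ⟨κ, x, w, m, r, C, hMS, c1, c2, c3, k1, k2, hC, hlim⟩ := ha₀ a ha
  set Ψ : ℂ := 2 * Complex.I * VC S κ x w -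
    ∑ v : Fin S.length, (if (nth S v).k = false then
      (a v : ℂ) * w v ^ 2 / 2 + 2 * Real.pi * w v else 0) -
    Real.pi ^ 2 / 2 * ∑ v : Fin S.length, (a v : ℂ) with hΨ
  have e1 : Ψ = glG S (κ, x, w) - ((Real.pi ^ 2 / 2 * ∑ v : Fin S.length, (a v : ℝ) : ℝ) : ℂ) := by
    rw [hΨ]
    unfold glG
    push_cast
    congr 2
    refine sum_congr rfl fun v _ => ?_
    by_cases hk : (nth S v).k = false
    · rw [if_pos hk, if_pos hk]
      have h2 := k2 v hk
      have h3 : Complex.log (Complex.cos (x v - w v / 2)) -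
          Complex.log (Complex.cos (x v + w v / 2)) - 2 * Real.pi * Complex.I =
          Complex.I * (a v * w v) := by
        linear_combination h2
      rw [show Complex.log (Complex.cos ((κ, x, w).2.1 v - (κ, x, w).2.2 v / 2)) -
        Complex.log (Complex.cos ((κ, x, w).2.1 v + (κ, x, w).2.2 v / 2)) -
          2 * Real.pi * Complex.I = Complex.I * (a v * w v) from h3,
        mul_div_cancel_left₀ _ Complex.I_ne_zero]
      ring
    · rw [if_neg hk, if_neg hk]
  have hd : dist ((κ, x, w) : (Fin S.length → Fin 4 → ℂ) × (Fin S.length → ℂ) ×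
      (Fin S.length → ℂ)) (fun v k => (κs v k : ℂ), fun v => (xs v : ℂ), 0) < δ := by
    refine lt_of_le_of_lt ?_ (show δ / 2 < δ by linarith)
    have h0 : 0 ≤ δ / 2 := by linarith
    rw [Prod.dist_eq, Prod.dist_eq]
    refine max_le ?_ (max_le ?_ ?_)
    · refine (dist_pi_le_iff h0).2 fun v => (dist_pi_le_iff h0).2 fun k => ?_
      rw [dist_eq_norm]
      exact c1 v k
    · refine (dist_pi_le_iff h0).2 fun v => ?_
      rw [dist_eq_norm]
      exact (c2 v).1
    · refine (dist_pi_le_iff h0).2 fun v => ?_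
      rw [dist_eq_norm]
      simpa using (c2 v).2.1
  have h4 := hball hd
  rw [gl_val hAng, dist_eq_norm] at h4
  have h5 : |Ψ.im - 2 * VF S (ori S) κs xs| < ε := by
    refine lt_of_le_of_lt ?_ h4
    have e2 : Ψ.im - 2 * VF S (ori S) κs xs =
        (glG S (κ, x, w) - 2 * Complex.I * ((VF S (ori S) κs xs : ℝ) : ℂ)).im := by
      rw [e1, Complex.sub_im, Complex.sub_im, Complex.ofReal_im]
      simp
    rw [e2]
    exact Complex.abs_im_le_norm _
  have hlim' : Tendsto (fun N : ℕ => (N : ℂ) ^ (-3 / 2 : ℂ) *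
      Complex.exp (-(N * (1 / (2 * Real.pi * Complex.I) * Ψ))) * GSum N (setA S a))
      atTop (𝓝 C) := by
    refine hlim.congr fun N => ?_
    have e2 : (((N : ℝ) ^ (-(3 / 2) : ℝ) : ℝ) : ℂ) = (N : ℂ) ^ (-3 / 2 : ℂ) := by
      rw [Complex.ofReal_cpow (Nat.cast_nonneg N)]
      push_cast
      congr 1
      ring
    rw [e2]
  obtain ⟨g1, g2, -, -⟩ := fin_gen hC hlim'
  have him : 2 * Real.pi * (1 / (2 * Real.pi * Complex.I) * Ψ).re = Ψ.im := by
    have : 1 / (2 * Real.pi * Complex.I) * Ψ = (((2 * Real.pi)⁻¹ : ℝ) : ℂ) *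
        (-Complex.I * Ψ) := by
      have hp : (Real.pi : ℂ) ≠ 0 := by exact_mod_cast Real.pi_ne_zero
      push_cast
      field_simp
      linear_combination Ψ * Complex.I_sq
    rw [this, Complex.re_ofReal_mul]
    simp
    field_simp
  rw [him] at g1
  have h6 : 2 * VF S (ori S) κs xs - ε < Ψ.im := by
    have := (abs_lt.1 h5).1
    linarith
  filter_upwards [g1.eventually_const_lt h6, eventually_ge_atTop 1, g2] with N hN hN1 hN2
  have hNp : (0 : ℝ) < N := by exact_mod_cast hN1
  have h7 : N / (2 * Real.pi) * (2 * VF S (ori S) κs xs - ε) <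
      Real.log ‖GSum N (setA S a)‖ := by
    have h8 : (0 : ℝ) < N / (2 * Real.pi) := by positivity
    have h9 := mul_lt_mul_of_pos_left hN h8
    refine lt_of_lt_of_eq h9 ?_
    field_simp
  rw [← Real.le_log_iff_exp_le (norm_pos_iff.2 hN2)]
  exact h7.le

end Pool.Agent.FAR
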