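import Pool.Agent.Lib_helper14.FAR.GD
import Pool.Agent.Lib_helper14.FAR.GV
import Pool.Agent.Lib_helper43.BTF.ZZ
import Pool.Agent.Lib_helper14.BTF.PiOK
import Pool.Agent.Lib_helper43.BTR.OfSk
import Pool.Agent.Lib_helper91.BTF.S07a

/-!
# The hyperbolic structure of the fully augmented link
-/

set_option autoImplicit false

open Complex Pool.Agent.VCdt.Geo Pool.Agent.VCdt.HV Filter Topology Pool.Agent.Lib_helper77.VC

namespace Pool.Agent.FAR

open Pool.Agent.TB Pool.Agent.BT

theorem dress_labs (S : Sk) (a : ℕ → ℤ) (k : ℕ → Bool) (G : List (Option ℕ)) (f : ℕ) :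
    labs (dress S a k) G f = labs S G f := by
  induction S generalizing a k G f with
  | nil => rfl
  | cons b S ih => rw [dress, labs, labs, ih]

theorem dress_length (S : Sk) (a : ℕ → ℤ) (k : ℕ → Bool) : (dress S a k).length = S.length := by
  induction S generalizing a k with
  | nil => rfl
  | cons b S ih => rw [dress, List.length_cons, List.length_cons, ih]

theorem dress_nth (S : Sk) (a : ℕ → ℤ) (k : ℕ → Bool) {v : ℕ} (hv : v < S.length) :
    nth (dress S a k) v = { nth S v with a := a v, k := k v } := by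
  induction S generalizing a k v with
  | nil => exact absurd hv (Nat.not_lt_zero _)
  | cons b S ih =>
    cases v with
    | zero => rfl
    | succ v => exact ih (fun i => a (i + 1)) (fun i => k (i + 1)) (by simpa using hv)

theorem dress_setA (S : Sk) (a b : ℕ → ℤ) (k : ℕ → Bool) :
    setA (dress S b k) a = dress S a k := by
  induction S generalizing a b k with
  | nil => rfl
  | cons c S ih => simp [dress, setA, ih]

theorem cor_dress (S : Sk) (a : ℕ → ℤ) (k : ℕ → Bool) : cor_E S (dress S a k) := by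
  refine ⟨dress_length S a k, fun v k' => ?_, fun v hv => ?_⟩
  · rw [face, face, dress_labs]
  · unfold ori
    rw [dress_nth S a k hv]

theorem dress_cl (S : Sk) (a : ℕ → ℤ) (k : ℕ → Bool) (v : ℕ) (j : Fin 4) :
    cl (dress S a k) v j = cl S v j := by
  unfold cl
  rw [dress_labs, dress_length]

theorem cor_symm {S S' : Sk} (h : cor_E S S') : cor_E S' S := by
  refine ⟨h.len.symm, fun v k => (h.face v k).symm, fun v hv => ?_⟩
  exact (h.ori v (by rw [← h.len]; exact hv)).symm

theorem cor_trans {S S' S'' : Sk} (h : cor_E S S') (h' : cor_E S' S'') : cor_E S S'' := by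
  refine ⟨h'.len.trans h.len, fun v k => (h'.face v k).trans (h.face v k), fun v hv => ?_⟩
  rw [h'.ori v (by rw [h.len]; exact hv), h.ori v hv]

theorem cor_ang {S S' : Sk} (h : cor_E S S') (κ : ℕ → Fin 4 → ℝ) (x : ℕ → ℝ)
    (hA : Ang S (ori S) (fun v k => κ v k) (fun v => x v)) :
    Ang S' (ori S') (fun v k => κ v k) (fun v => x v) := by
  have hlt : ∀ v : Fin S'.length, v.1 < S.length := fun v => by
    have := v.2
    have h2 := h.len
    omega
  refine ⟨cor_lin h _ κ x hA.lin, ?_, ?_⟩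
  · intro v
    exact hA.col ⟨v.1, hlt v⟩
  · intro v k h1 h2
    rw [cor_end h] at h1
    rw [h.face] at h2
    rw [h.ori v (hlt v)]
    exact hA.pos ⟨v.1, hlt v⟩ k h1 h2

theorem cor_VF {S S' : Sk} (h : cor_E S S') (κ : ℕ → Fin 4 → ℝ) (x : ℕ → ℝ) :
    VF S' (ori S') (fun v k => κ v k) (fun v => x v) =
      VF S (ori S) (fun v k => κ v k) (fun v => x v) := by
  unfold VF
  congr 1
  · refine cor_sum h (fun v => ∑ k : Fin 4, if isEnd S v = false ∧ face S v k ≠ none then
      BT.v3 (κ v k) (sl (ori S v) Real.pi (x v) k) else 0)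
      (fun v => ∑ k : Fin 4, if isEnd S' v = false ∧ face S' v k ≠ none then
      BT.v3 (κ v k) (sl (ori S' v) Real.pi (x v) k) else 0) fun v hv => ?_
    simp only [cor_end h, h.face, h.ori v hv]
  · exact cor_sum h (fun v => oct (x v)) _ fun v _ => rfl

theorem cor_cang {S S' : Sk} (h : cor_E S S') (κ : ℕ → Fin 4 → ℝ) (x : ℕ → ℝ)
    (hA : CAng S (ori S) (fun v k => κ v k) (fun v => x v)) :
    CAng S' (ori S') (fun v k => κ v k) (fun v => x v) := by
  have hlt : ∀ v : Fin S'.length, v.1 < S.length := fun v => by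
    have := v.2
    have h2 := h.len
    omega
  refine ⟨cor_lin h _ κ x hA.lin, ?_, ?_⟩
  · intro v
    exact hA.col ⟨v.1, hlt v⟩
  · intro v k h1 h2
    rw [cor_end h] at h1
    rw [h.face] at h2
    rw [h.ori v (hlt v)]
    exact hA.pos ⟨v.1, hlt v⟩ k h1 h2

/-- `V` is twice the maximum of the volumes of the angle structures -/
def MaxV (S : Sk) (V : ℝ) : Prop :=
  (∃ κ x, CAng S (ori S) κ x ∧ 2 * VF S (ori S) κ x = V) ∧
    ∀ κ x, CAng S (ori S) κ x → 2 * VF S (ori S) κ x ≤ V

theorem cor_MaxV {S S' : Sk} (h : cor_E S S') {V V' : ℝ} (hV : MaxV S V) (hV' : MaxV S' V') :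
    V ≤ V' := by
  obtain ⟨κ, x, hC, rfl⟩ := hV.1
  have e1 : (fun (v : Fin S.length) k => exF κ v k) = κ := by
    funext v
    exact exF_val κ v
  have e2 : (fun v : Fin S.length => exF x v) = x := exF_fun x
  have hC' : CAng S (ori S) (fun v k => exF κ v k) (fun v => exF x v) := by
    rw [e1, e2]
    exact hC
  have h1 := hV'.2 _ _ (cor_cang h _ _ hC')
  rw [cor_VF h, e1, e2] at h1
  exact h1

theorem MaxV_eq {S S' : Sk} (h : cor_E S S') {V V' : ℝ} (hV : MaxV S V) (hV' : MaxV S' V') :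
    V = V' :=
  le_antisymm (cor_MaxV h hV hV') (cor_MaxV (cor_symm h) hV' hV)

/-- The hyperbolic structure of a fully augmented link, its fundamental group and its volume. -/
theorem aug_geo {S : Sk} (h : Fits S 1) (hS : S ≠ []) (hk : ∀ v < S.length, (nth S v).k = true)
    (κs : ℕ → Fin 4 → ℝ) (xs ms rs : ℕ → ℝ)
    (hA : Ang S (ori S) (fun v k => κs v k) (fun v => xs v))
    (hM : MSol S (fun v k => (κs v k : ℂ)) (fun v => (xs v : ℂ)) (fun v => (0 : ℕ → ℂ) v)
      (fun v => (ms v : ℂ)) (fun f => (rs f : ℂ))) :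
    ∃ (ι : Type) (_ : Fintype ι) (T : Tr ι) (z : ι → ℂ) (tree : Finset (ι × Fin 4)),
      T.IsHyp ∅ z ∧ T.IsMaxTree tree ∧
      Nonempty (PresentedGroup (wirtRels (diag S h)) ≃*
        PresentedGroup (T.rels (tree : Set (ι × Fin 4)))) ∧
      0 < ∑ t, (hypVol (idealTet (z t))).toReal ∧
      ∑ t, (hypVol (idealTet (z t))).toReal =
        2 * VF S (ori S) (fun v k => κs v k) (fun v => xs v) := by
  have hv0 := vc_vf hA
  obtain ⟨K, hK, rfl⟩ := plan_of_tight h hS (ang_tight (ori S) hA)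
  have hok := msol_ok K hK (fun n k => (κs n k : ℂ)) (fun n => (xs n : ℂ)) 0
    (fun n => (ms n : ℂ)) (fun n => (rs n : ℂ)) hM
  have hpos : (psol K (fun n k => (κs n k : ℂ)) (fun n => (xs n : ℂ)) 0
    (fun n => (ms n : ℂ)) (fun n => (rs n : ℂ))).Pos := ang_pos K hK κs xs ms rs hA
  set P₀ := psol K (fun n k => (κs n k : ℂ)) (fun n => (xs n : ℂ)) 0
    (fun n => (ms n : ℂ)) (fun n => (rs n : ℂ)) with hP₀
  have hn : (P₀.dat hK).Near := (PSol.near_ev hK hok hpos).self_of_nhds
  have ht : ∀ t, Tm ((P₀.dat hK).ang t) := (PSol.tm_ev hK hok hpos).self_of_nhds hok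
  obtain ⟨n1, n2, n3, n4⟩ := nth_blks K
  have k1 : ∀ v, (bk K.mid v).k = true := by
    intro v
    have h1 := hk (tmL K.mid v + 1) (by have := (n2 v).2; omega)
    rw [(n2 v).1] at h1
    exact h1
  have k2 : K.top.k = true := by
    have h1 := hk 0 (by omega)
    rw [n3] at h1
    exact h1
  have k3 : K.bot.k = true := by
    have h1 := hk (K.mid.length + 1) (by omega)
    rw [n4] at h1
    exact h1
  have k4 : ∀ b : Bool, (if b then K.bot.k else K.top.k) = true := by
    intro b
    cases b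
    · exact k2
    · exact k3
  have hw : ∀ v, P₀.w v = 0 := fun _ => rfl
  have hwE : ∀ b, P₀.wE b = 0 := fun b => by cases b <;> rfl
  have hsl : (K.net hK).slopes K.aV K.aE K.fl K.flE = ∅ := by
    ext s
    simp only [Net.slopes, Set.mem_ofPred_eq, Set.mem_empty_iff_false, iff_false, not_or,
      not_exists, not_and]
    constructor
    · intro v hv
      simp only [Plan.fl, k1 v] at hv
      exact absurd hv (by simp)
    · intro b hb
      simp only [Plan.flE, k4 b] at hb
      exact absurd hb (by simp)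
  obtain ⟨p, q, o, k, q1, -, -, q4, q5⟩ := plan_geo K hK hok hpos hok hn ht
    (fun v hv => absurd ((k1 v).symm.trans hv) (by simp)) (fun v _ => hw v)
    (fun b hb => absurd ((k4 b).symm.trans hb) (by simp)) (fun b _ => hwE b)
  rw [hsl] at q1
  obtain ⟨t1, t2⟩ := pi_ok K hK (PSol.nb hK hok hpos)
  have e1 : {w | ∃ s ∈ (K.net hK).slopes (fun v => (bk K.mid v).a)
      (fun b => if b then K.bot.a else K.top.a) (fun v => !(bk K.mid v).k)
      (fun b => !(if b then K.bot.k else K.top.k)), w = (K.net hK).tri.word s.1 s.2} = ∅ := by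
    ext w
    simp only [Set.mem_ofPred_eq, Set.mem_empty_iff_false, iff_false, not_exists, not_and]
    intro s hs
    have : s ∈ (K.net hK).slopes K.aV K.aE K.fl K.flE := hs
    rw [hsl] at this
    exact absurd this (Set.notMem_empty _)
  rw [e1, Set.union_empty] at t2
  have hVF : (P₀.dat hK).VF =
      ((VF K.blks (ori K.blks) (fun v k => κs v k) (fun v => xs v) : ℝ) : ℂ) := by
    rw [hP₀, vf_vc]
    exact hv0
  have hvol : ∑ t, (hypVol (idealTet ((P₀.dat hK).z t))).toReal =
      2 * VF K.blks (ori K.blks) (fun v k => κs v k) (fun v => xs v) := by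
    rw [← q5]
    have h1 := congrArg Complex.im q4
    rw [hVF] at h1
    have h2 : (∑ v : Vx K.mid, (if (bk K.mid v).k = false then
          ((bk K.mid v).a : ℂ) * P₀.w v ^ 2 / 2 + 2 * Real.pi * P₀.w v else 0)) = 0 :=
      Finset.sum_eq_zero fun v _ => by rw [if_neg (by rw [k1 v]; simp)]
    have h3 : (∑ b : Bool, (if (if b then K.bot.k else K.top.k) = false then
          (K.aE b : ℂ) * P₀.wE b ^ 2 / 2 + 2 * Real.pi * P₀.wE b else 0)) = 0 :=
      Finset.sum_eq_zero fun b _ => by rw [if_neg (by rw [k4 b]; simp)]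
    rw [h2, h3, sub_zero, sub_zero] at h1
    have h4 : ((k : ℂ) * (Real.pi : ℂ) ^ 2).im = 0 := by
      rw [show (k : ℂ) * (Real.pi : ℂ) ^ 2 = (((k : ℝ) * Real.pi ^ 2 : ℝ) : ℂ) by
        push_cast; ring]
      exact ofReal_im _
    have h5 : ((Real.pi : ℂ) ^ 2 / 2 * (∑ v : Vx K.mid, ((bk K.mid v).a : ℂ) +
          ∑ b : Bool, (K.aE b : ℂ))).im = 0 := by
      rw [show (Real.pi : ℂ) ^ 2 / 2 * (∑ v : Vx K.mid, ((bk K.mid v).a : ℂ) +
          ∑ b : Bool, (K.aE b : ℂ)) = ((Real.pi ^ 2 / 2 * (∑ v : Vx K.mid, ((bk K.mid v).a : ℝ) +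
          ∑ b : Bool, (K.aE b : ℝ)) : ℝ) : ℂ) by push_cast; ring]
      exact ofReal_im _
    rw [add_im, sub_im, h4, h5, add_zero, sub_zero] at h1
    rw [h1]
    simp
  refine ⟨_, inferInstance, (K.net hK).tri, (P₀.dat hK).z, (K.net hK).mtree, q1, t1, t2, ?_, hvol⟩
  have hne : Nonempty ((K.net hK).Tt × Bool) := ⟨(.inr (.inl (false, false)), false)⟩
  exact Finset.sum_pos (fun t _ => hypVol_pos (q1.pos t)) Finset.univ_nonempty

end Pool.Agent.FAR
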